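import Pool.Agent.Run7.h676.NI.Iface

/-!
# Piece REPB of the project NI of helper676 (MP_e56c9f_al)
-/

set_option autoImplicit false

open scoped commutatorElement

namespace Run7.h400.NI

open Pool.Agent.Run7.h676.NI

theorem t_REPB (hGP : S_GP) (hREPA : S_REPA) : S_REPB := by
  intro Γ k W _ _ _ _ _ _ _ ρ p L V R hC hI hF hRL hRn hcl hVR
  haveI := hI.1
  obtain ⟨U, w, hG⟩ := hREPA Γ k W ρ R hRn hcl
  have hRL' := hC.normal
  -- the subgroup `S`
  let S : Subgroup Γ :=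
    { carrier := {γ | ∀ x ∈ R, x⁻¹ * (γ * x * γ⁻¹) ∈ U}
      one_mem' := by
        intro x _
        simp [U.one_mem]
      mul_mem' := by
        intro a b ha hb x hx
        have h1 := hb x hx
        have h2 := ha (b * x * b⁻¹) (hRn.conj_mem x hx b)
        have h3 := U.mul_mem h1 h2
        have h4 : x⁻¹ * (b * x * b⁻¹) * ((b * x * b⁻¹)⁻¹ * (a * (b * x * b⁻¹) * a⁻¹)) =
            x⁻¹ * (a * b * x * (a * b)⁻¹) := by group
        rwa [h4] at h3
      inv_mem' := by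
        intro a ha x hx
        have h1 : a⁻¹ * x * a ∈ R := by
          have := hRn.conj_mem x hx a⁻¹
          rwa [inv_inv] at this
        have h2 := U.inv_mem (ha _ h1)
        have h4 : ((a⁻¹ * x * a)⁻¹ * (a * (a⁻¹ * x * a) * a⁻¹))⁻¹ =
            x⁻¹ * (a⁻¹ * x * a⁻¹⁻¹) := by group
        rwa [h4] at h2 }
  have hS : ∀ γ, γ ∈ S ↔ ∀ x ∈ R, x⁻¹ * (γ * x * γ⁻¹) ∈ U := fun γ => Iff.rfl
  obtain ⟨g, hg, hgS⟩ := hGP Γ p L S V hC.ea hC.normal hC.solv hC.cop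
  let U' : Subgroup Γ := U.comap (MulAut.conj g⁻¹).toMonoidHom
  have hU' : ∀ z, z ∈ U' ↔ g⁻¹ * z * g ∈ U := by
    intro z
    show (MulAut.conj g⁻¹) z ∈ U ↔ _
    rw [MulAut.conj_apply, inv_inv]
  have hR : ∀ z, z ∈ R → g⁻¹ * z * g ∈ R := by
    intro z hz
    have := hRn.conj_mem z hz g⁻¹
    rwa [inv_inv] at this
  have hRad : ∀ x, x ∈ Rad R U' → g⁻¹ * x * g ∈ Rad R U := by
    rintro x ⟨h1, h2⟩
    refine ⟨hR x h1, fun y hy => ?_⟩
    have h3 := (hU' _).1 (h2 (g * y * g⁻¹) (hRn.conj_mem y hy g))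
    have h4 : g⁻¹ * ⁅x, g * y * g⁻¹⁆ * g = ⁅g⁻¹ * x * g, y⁆ := by
      simp only [commutatorElement_def]
      group
    rwa [h4] at h3
  have hmul : ∀ (a b : Γ) (u : W), ρ a (ρ b u) = ρ (a * b) u := by
    intro a b u
    rw [map_mul]
    rfl
  have hone : ∀ u : W, ρ 1 u = u := by
    intro u
    rw [map_one]
    rfl
  have hmv : ∀ (x γ : Γ) (u : W), ρ x (ρ γ u) = ρ γ (ρ (γ⁻¹ * x * γ) u) := by
    intro x γ u
    rw [hmul, hmul]
    congr 2
    group
  have hinj : ∀ (γ : Γ) (u u' : W), ρ γ u = ρ γ u' → u = u' := by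
    intro γ u u' h
    have h1 := congrArg (ρ γ⁻¹) h
    rwa [hmul, hmul, inv_mul_cancel, hone, hone] at h1
  refine ⟨U', ρ g w, ?_, ?_⟩
  · refine ⟨⟨?_, ?_⟩, ?_, ?_, ?_, ?_⟩
    · intro z hz
      have h1 := hRn.conj_mem _ (hG.nin.le ((hU' z).1 hz)) g
      have h2 : g * (g⁻¹ * z * g) * g⁻¹ = z := by group
      rwa [h2] at h1
    · intro u hu y hy
      rw [hU']
      have h1 := hG.nin.nor _ ((hU' u).1 hu) _ (hR y hy)
      have h4 : ⁅g⁻¹ * u * g, g⁻¹ * y * g⁆ = g⁻¹ * ⁅u, y⁆ * g := by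
        simp only [commutatorElement_def]
        group
      rwa [h4] at h1
    · intro h0
      apply hG.ne
      apply hinj g
      rw [h0, map_zero]
    · intro u hu
      rw [hmv, hG.fixU _ ((hU' u).1 hu)]
    · intro x hx h1
      rw [hU']
      apply hG.mem _ (hRad x hx)
      rw [hmv] at h1
      exact hinj g _ _ h1
    · intro x hx
      obtain ⟨c, hc⟩ := hG.eig _ (hRad x hx)
      refine ⟨c, ?_⟩
      rw [hmv, hc, map_smul]
  · intro v hv hvU
    have h1 : g⁻¹ * v * g ∈ S := by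
      rw [hS]
      intro y hy
      have h2 := (hU' _).1 (hvU (g * y * g⁻¹) (hRn.conj_mem y hy g))
      have h3 : g⁻¹ * ((g * y * g⁻¹)⁻¹ * (v * (g * y * g⁻¹) * v⁻¹)) * g =
          y⁻¹ * (g⁻¹ * v * g * y * (g⁻¹ * v * g)⁻¹) := by group
      rwa [h3] at h2
    have h2 := hgS v hv h1
    have h3 : ∀ γ : Γ, γ⁻¹ * v * γ ∈ S := by
      intro γ
      obtain ⟨x, hx, u, hu, hxu⟩ := hC.gen γ⁻¹
      have h4 := h2 x⁻¹ (L.inv_mem hx)
      have h5 : γ = u⁻¹ * x⁻¹ := by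
        rw [← mul_inv_rev, ← hxu, inv_inv]
      have h6 : u * v = v * u := hC.ea.comm u hu v hv
      have h7 : γ⁻¹ * v * γ = x⁻¹⁻¹ * v * x⁻¹ := by
        rw [h5]
        calc (u⁻¹ * x⁻¹)⁻¹ * v * (u⁻¹ * x⁻¹) = x * (u * v) * u⁻¹ * x⁻¹ := by group
          _ = x * (v * u) * u⁻¹ * x⁻¹ := by rw [h6]
          _ = x⁻¹⁻¹ * v * x⁻¹ := by group
      rw [h7]
      exact h4
    apply hVR v hv
    intro y hy
    have h4 : ∀ γ : Γ, ρ (y⁻¹ * (v * y * v⁻¹)) (ρ γ w) = ρ γ w := by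
      intro γ
      have h5 : γ⁻¹ * y * γ ∈ R := by
        have := hRn.conj_mem y hy γ⁻¹
        rwa [inv_inv] at this
      have h6 := (hS _).1 (h3 γ) _ h5
      have h7 : (γ⁻¹ * y * γ)⁻¹ * (γ⁻¹ * v * γ * (γ⁻¹ * y * γ) * (γ⁻¹ * v * γ)⁻¹) =
          γ⁻¹ * (y⁻¹ * (v * y * v⁻¹)) * γ := by group
      rw [h7] at h6
      rw [hmv, hG.fixU _ h6]
    have h5 : Submodule.span k (Set.range fun γ : Γ => ρ γ w) = ⊤ := by
      refine (hI.2 _ ?_).resolve_left ?_
      · intro γ u hu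
        have h6 : Submodule.span k (Set.range fun γ : Γ => ρ γ w) ≤
            (Submodule.span k (Set.range fun γ : Γ => ρ γ w)).comap (ρ γ) := by
          rw [Submodule.span_le]
          rintro _ ⟨δ, rfl⟩
          show ρ γ (ρ δ w) ∈ Submodule.span k (Set.range fun γ : Γ => ρ γ w)
          rw [hmul]
          exact Submodule.subset_span ⟨γ * δ, rfl⟩
        exact h6 hu
      · intro h0
        rw [Submodule.span_eq_bot] at h0
        have h6 := h0 (ρ 1 w) ⟨1, rfl⟩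
        rw [hone] at h6
        exact hG.ne h6
    have h6 : ρ (y⁻¹ * (v * y * v⁻¹)) = 1 := by
      apply LinearMap.ext
      intro u
      have h7 : u ∈ Submodule.span k (Set.range fun γ : Γ => ρ γ w) := by
        rw [h5]
        exact Submodule.mem_top
      have h8 : Submodule.span k (Set.range fun γ : Γ => ρ γ w) ≤
          LinearMap.eqLocus (ρ (y⁻¹ * (v * y * v⁻¹))) (1 : W →ₗ[k] W) := by
        rw [Submodule.span_le]
        rintro _ ⟨δ, rfl⟩
        exact h4 δ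
      exact h8 h7
    have h7 : y⁻¹ * (v * y * v⁻¹) ∈ L :=
      hRL (R.mul_mem (R.inv_mem hy) (hRn.conj_mem y hy v))
    have h8 := hF _ h7 h6
    have h9 : y * (y⁻¹ * (v * y * v⁻¹)) * v = y * 1 * v := by rw [h8]
    have h10 : y * (y⁻¹ * (v * y * v⁻¹)) * v = v * y := by group
    rw [h10, mul_one] at h9
    exact h9

end Run7.h400.NI
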